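import Pool.Agent.N264.MKI.Leaf

/-!
# Analytic first integrals of the billiard inside an ellipse are constant on confocal tangent lines
-/

set_option autoImplicit false

open Set Filter Topology Complex

namespace Pool.Agent.N264.MKI

/-- support coordinate of the line with normal angle `φ` through `z` -/
noncomputable def spt (z : ℂ) (φ : ℝ) : ℝ := (z * cexp (-(φ * I))).re

theorem spt_eq (z : ℂ) (φ : ℝ) : spt z φ = z.re * Real.cos φ + z.im * Real.sin φ := by
  unfold spt
  have h : cexp (-(φ * I)) = (⟨Real.cos φ, -Real.sin φ⟩ : ℂ) := by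
    have h1 : -((φ : ℂ) * I) = ((-φ : ℝ) : ℂ) * I := by push_cast; ring
    rw [h1]
    apply Complex.ext
    · rw [Complex.exp_ofReal_mul_I_re, Real.cos_neg]
    · rw [Complex.exp_ofReal_mul_I_im, Real.sin_neg]
  rw [h, Complex.mul_re]
  ring

/-- squared support function (about the centre) of the conic with the matrix `(a, b; b, d)` -/
noncomputable def h2 (a b d φ : ℝ) : ℝ :=
  (d * Real.cos φ ^ 2 - 2 * b * (Real.cos φ * Real.sin φ) + a * Real.sin φ ^ 2) / (a * d - b ^ 2)

theorem h2_ge {a b d : ℝ} (ha : 0 < a) (hdet : 0 < a * d - b ^ 2) (φ : ℝ) :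
    1 / (a + d) ≤ h2 a b d φ := by
  have hd : 0 < d := by nlinarith [sq_nonneg b]
  unfold h2
  rw [div_le_div_iff₀ (by linarith) hdet]
  have h1 := Real.sin_sq_add_cos_sq φ
  set s := Real.sin φ
  set c := Real.cos φ
  have h2 : (d * c ^ 2 - 2 * b * (c * s) + a * s ^ 2) * (a + d) - (a * d - b ^ 2) * (s ^ 2 + c ^ 2)
      = (d * c - b * s) ^ 2 + (b * c - a * s) ^ 2 := by ring
  rw [h1] at h2
  nlinarith [sq_nonneg (d * c - b * s), sq_nonneg (b * c - a * s)]

theorem h2_an (a b d φ : ℝ) : AnalyticAt ℝ (h2 a b d) φ := by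
  unfold h2
  have hc : AnalyticAt ℝ Real.cos φ := Real.analyticAt_cos
  have hs : AnalyticAt ℝ Real.sin φ := Real.analyticAt_sin
  simp only [div_eq_mul_inv]
  exact (((analyticAt_const.fun_mul (hc.fun_pow 2)).fun_sub
    (analyticAt_const.fun_mul (hc.fun_mul hs))).fun_add
    (analyticAt_const.fun_mul (hs.fun_pow 2))).fun_mul analyticAt_const

theorem sqrt_an {x : ℝ} (hx : 0 < x) : AnalyticAt ℝ Real.sqrt x :=
  (Real.contDiffAt_sqrt (n := ⊤) hx.ne').analyticAt

/-- data of the tangent line at `γ s` -/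
theorem pts {γ : ℝ → ℂ} {ρ : ℝ → ℝ} (hpos : ∀ s, 0 < ρ s)
    (hder : ∀ s : ℝ, HasDerivAt γ ((ρ s : ℂ) * I * cexp (s * I)) s) {c : ℂ} {a b d : ℝ}
    (ha : 0 < a) (hdet : 0 < a * d - b ^ 2)
    (hr : Set.range γ = {x : ℂ | a * (x.re - c.re) ^ 2 + 2 * b * (x.re - c.re) * (x.im - c.im)
        + d * (x.im - c.im) ^ 2 = 1}) (s : ℝ) :
    0 < (γ s).re * Real.cos s + (γ s).im * Real.sin s - (c.re * Real.cos s + c.im * Real.sin s) ∧
    ∀ φ : ℝ, ((γ s).re * Real.cos φ + (γ s).im * Real.sin φ -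
      (c.re * Real.cos φ + c.im * Real.sin φ)) ^ 2 =
      h2 a b d φ - 1 / ((a * d - b ^ 2) * h2 a b d s) * Real.sin (φ - s) ^ 2 := by
  set u := c.re with hu
  set v := c.im with hv
  have hre : ∀ s, HasDerivAt (fun s => (γ s).re) (ρ s * -Real.sin s) s := by
    intro s
    have e1 : (ρ s : ℂ) * I * cexp (s * I) = ⟨ρ s * -Real.sin s, ρ s * Real.cos s⟩ := by
      apply Complex.ext
      · simp [Complex.exp_ofReal_mul_I_re, Complex.exp_ofReal_mul_I_im]
      · simp [Complex.exp_ofReal_mul_I_re, Complex.exp_ofReal_mul_I_im]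
    have h1 := hder s
    rw [e1] at h1
    exact Complex.reCLM.hasFDerivAt.comp_hasDerivAt s h1
  have him : ∀ s, HasDerivAt (fun s => (γ s).im) (ρ s * Real.cos s) s := by
    intro s
    have e1 : (ρ s : ℂ) * I * cexp (s * I) = ⟨ρ s * -Real.sin s, ρ s * Real.cos s⟩ := by
      apply Complex.ext
      · simp [Complex.exp_ofReal_mul_I_re, Complex.exp_ofReal_mul_I_im]
      · simp [Complex.exp_ofReal_mul_I_re, Complex.exp_ofReal_mul_I_im]
    have h1 := hder s
    rw [e1] at h1
    exact Complex.imCLM.hasFDerivAt.comp_hasDerivAt s h1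
  have hconst : ∀ s, a * ((γ s).re - u) ^ 2 + 2 * b * ((γ s).re - u) * ((γ s).im - v)
      + d * ((γ s).im - v) ^ 2 = 1 := by
    intro s
    have : γ s ∈ Set.range γ := ⟨s, rfl⟩
    rw [hr] at this
    exact this
  have horth : ∀ s, (a * ((γ s).re - u) + b * ((γ s).im - v)) * (-Real.sin s) +
      (b * ((γ s).re - u) + d * ((γ s).im - v)) * Real.cos s = 0 := by
    intro s
    have h1 : HasDerivAt (fun s => a * ((γ s).re - u) ^ 2 + 2 * b * ((γ s).re - u) *
        ((γ s).im - v) + d * ((γ s).im - v) ^ 2)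
        (a * (2 * ((γ s).re - u) * (ρ s * -Real.sin s)) +
          ((2 * b * (ρ s * -Real.sin s)) * ((γ s).im - v) +
            2 * b * ((γ s).re - u) * (ρ s * Real.cos s)) +
          d * (2 * ((γ s).im - v) * (ρ s * Real.cos s))) s := by
      have hx := (hre s).sub_const u
      have hy := (him s).sub_const v
      have := (((hx.fun_pow 2).const_mul a).fun_add ((hx.const_mul (2 * b)).fun_mul hy)).fun_add
        ((hy.fun_pow 2).const_mul d)
      refine this.congr_deriv ?_
      norm_num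
    have h2 : HasDerivAt (fun s => a * ((γ s).re - u) ^ 2 + 2 * b * ((γ s).re - u) *
        ((γ s).im - v) + d * ((γ s).im - v) ^ 2) 0 s := by
      have : (fun s => a * ((γ s).re - u) ^ 2 + 2 * b * ((γ s).re - u) *
        ((γ s).im - v) + d * ((γ s).im - v) ^ 2) = fun _ => (1 : ℝ) := funext hconst
      rw [this]
      exact hasDerivAt_const s 1
    have h3 := h1.unique h2
    have h4 : 2 * ρ s * ((a * ((γ s).re - u) + b * ((γ s).im - v)) * (-Real.sin s) +
      (b * ((γ s).re - u) + d * ((γ s).im - v)) * Real.cos s) = 0 := by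
      linear_combination h3
    exact (mul_eq_zero.1 h4).resolve_left (mul_ne_zero two_ne_zero (hpos s).ne')
  -- the multiplier
  set M := (a * ((γ s).re - u) + b * ((γ s).im - v)) * Real.cos s +
    (b * ((γ s).re - u) + d * ((γ s).im - v)) * Real.sin s with hM
  have hs1 := Real.sin_sq_add_cos_sq s
  set S := Real.sin s with hS
  set C := Real.cos s with hC
  have hMq : M = ρ s * (a * S ^ 2 - 2 * b * (C * S) + d * C ^ 2) := by
    have hx := (hre s).sub_const u
    have hy := (him s).sub_const v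
    have hsd := (Real.hasDerivAt_sin s).neg
    have hcd := Real.hasDerivAt_cos s
    have h1 : HasDerivAt (fun s => (a * ((γ s).re - u) + b * ((γ s).im - v)) * (-Real.sin s) +
      (b * ((γ s).re - u) + d * ((γ s).im - v)) * Real.cos s)
      (((a * (ρ s * -S) + b * (ρ s * C)) * (-S) +
        (a * ((γ s).re - u) + b * ((γ s).im - v)) * (-C)) +
       ((b * (ρ s * -S) + d * (ρ s * C)) * C +
        (b * ((γ s).re - u) + d * ((γ s).im - v)) * (-S))) s :=
      (((hx.const_mul a).fun_add (hy.const_mul b)).fun_mul hsd).fun_add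
        (((hx.const_mul b).fun_add (hy.const_mul d)).fun_mul hcd)
    have h2 : HasDerivAt (fun s => (a * ((γ s).re - u) + b * ((γ s).im - v)) * (-Real.sin s) +
      (b * ((γ s).re - u) + d * ((γ s).im - v)) * Real.cos s) 0 s := by
      have : (fun s => (a * ((γ s).re - u) + b * ((γ s).im - v)) * (-Real.sin s) +
        (b * ((γ s).re - u) + d * ((γ s).im - v)) * Real.cos s) = fun _ => (0 : ℝ) := funext horth
      rw [this]
      exact hasDerivAt_const s 0
    have h3 := h1.unique h2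
    rw [hM]
    linear_combination -h3
  have hq : 0 < a * S ^ 2 - 2 * b * (C * S) + d * C ^ 2 := by
    have h1 := h2_ge ha hdet s
    have hd : 0 < d := by nlinarith [sq_nonneg b]
    have h3 : 0 < h2 a b d s := lt_of_lt_of_le (by positivity) h1
    unfold h2 at h3
    have h4 := (div_pos_iff_of_pos_right hdet).1 h3
    linarith
  have hM0 : 0 < M := by rw [hMq]; exact mul_pos (hpos s) hq
  have hAx : a * ((γ s).re - u) + b * ((γ s).im - v) = M * C := by
    have := horth s
    rw [hM]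
    linear_combination (a * ((γ s).re - u) + b * ((γ s).im - v)) * (-hs1) - S * this
  have hAy : b * ((γ s).re - u) + d * ((γ s).im - v) = M * S := by
    have := horth s
    rw [hM]
    linear_combination (b * ((γ s).re - u) + d * ((γ s).im - v)) * (-hs1) + C * this
  have hX : (a * d - b ^ 2) * ((γ s).re - u) = M * (d * C - b * S) := by
    linear_combination d * hAx - b * hAy
  have hY : (a * d - b ^ 2) * ((γ s).im - v) = M * (a * S - b * C) := by
    linear_combination a * hAy - b * hAx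
  have hMx : M * (((γ s).re - u) * C + ((γ s).im - v) * S) = 1 := by
    have := hconst s
    linear_combination this - ((γ s).re - u) * hAx - ((γ s).im - v) * hAy
  obtain ⟨D, hD⟩ : ∃ D, D = a * d - b ^ 2 := ⟨_, rfl⟩
  obtain ⟨Q, hQ⟩ : ∃ Q, Q = d * C ^ 2 - 2 * b * (C * S) + a * S ^ 2 := ⟨_, rfl⟩
  have hQ0 : 0 < Q := by rw [hQ]; linarith
  have e : h2 a b d s = Q / D := by rw [hQ, hD]; rfl
  rw [← hD] at hdet hX hY
  have hMQ : M ^ 2 * Q = D := by
    have h1 : D * (M * (((γ s).re - u) * C + ((γ s).im - v) * S)) = M ^ 2 * Q := by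
      rw [hQ]
      linear_combination M * C * hX + M * S * hY
    rw [hMx, mul_one] at h1
    exact h1.symm
  refine ⟨?_, fun φ => ?_⟩
  · have h1 : 0 < ((γ s).re - u) * C + ((γ s).im - v) * S := by
      by_contra hcon
      push Not at hcon
      nlinarith
    linarith
  · rw [Real.sin_sub, e, ← hD, ← hC, ← hS]
    set S' := Real.sin φ with hS'
    set C' := Real.cos φ with hC'
    obtain ⟨P, hP⟩ : ∃ P, P = d * C' ^ 2 - 2 * b * (C' * S') + a * S' ^ 2 := ⟨_, rfl⟩
    have hφ' : h2 a b d φ = P / D := by rw [hP, hD]; rfl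
    obtain ⟨B, hB⟩ : ∃ B, B = (d * C - b * S) * C' + (a * S - b * C) * S' := ⟨_, rfl⟩
    have key : B ^ 2 = P * Q - D * (S' * C - C' * S) ^ 2 := by
      rw [hB, hP, hQ, hD]
      ring
    have hval : D * ((γ s).re * C' + (γ s).im * S' - (u * C' + v * S')) = M * B := by
      rw [hB]
      linear_combination C' * hX + S' * hY
    have h3 : ((γ s).re * C' + (γ s).im * S' - (u * C' + v * S')) = M * B / D := by
      rw [eq_div_iff hdet.ne', mul_comm, hval]
    rw [h3, hφ']
    have hM2 : M ^ 2 = D / Q := by rw [eq_div_iff hQ0.ne', hMQ]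
    rw [div_pow, mul_pow, hM2, key]
    have hD0 := hdet.ne'
    have hQ0' := hQ0.ne'
    field_simp

/-- **Confocal tangent lines.** -/
theorem conf {γ : ℝ → ℂ} {ρ : ℝ → ℝ} (hpos : ∀ s, 0 < ρ s)
    (hder : ∀ s : ℝ, HasDerivAt γ ((ρ s : ℂ) * I * cexp (s * I)) s) {c : ℂ} {a b d : ℝ}
    (ha : 0 < a) (hdet : 0 < a * d - b ^ 2)
    (hr : Set.range γ = {x : ℂ | a * (x.re - c.re) ^ 2 + 2 * b * (x.re - c.re) * (x.im - c.im)
        + d * (x.im - c.im) ^ 2 = 1}) {K : ℝ → ℝ → ℝ} {ε : ℝ} (hε : 0 < ε)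
    (hK : AnalyticOnNhd ℝ (Function.uncurry K) {z | |z.2 - spt (γ z.1) z.1| < ε})
    (hsym : ∀ s : ℝ, ∃ εs > 0, ∀ δ : ℝ, 0 < δ → δ < εs →
      K (s + δ) (spt (γ s) (s + δ)) = K (s - δ) (spt (γ s) (s - δ))) :
    ∃ η > 0, ∀ l : ℝ, |l| < η → ∃ κ : ℝ, ∀ φ : ℝ,
      |spt c φ + Real.sqrt (h2 a b d φ - l) - spt (γ φ) φ| < ε ∧ 0 < h2 a b d φ - l ∧
      K φ (spt c φ + Real.sqrt (h2 a b d φ - l)) = κ := by
  have hP := pts hpos hder ha hdet hr
  have hd : 0 < d := by nlinarith [sq_nonneg b]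
  have had : 0 < a + d := by linarith
  set m := 1 / (a + d) with hm
  have hm0 : 0 < m := by positivity
  have hge : ∀ φ, m ≤ h2 a b d φ := h2_ge ha hdet
  have hh0 : ∀ φ, 0 < h2 a b d φ := fun φ => hm0.trans_le (hge φ)
  -- the support function
  have hsup : ∀ s, spt (γ s) s = spt c s + Real.sqrt (h2 a b d s) := by
    intro s
    obtain ⟨h1, h2'⟩ := hP s
    have h3 := h2' s
    rw [sub_self, Real.sin_zero] at h3
    rw [spt_eq, spt_eq]
    have h4 : Real.sqrt (h2 a b d s) = (γ s).re * Real.cos s + (γ s).im * Real.sin s -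
        (c.re * Real.cos s + c.im * Real.sin s) := by
      rw [← Real.sqrt_sq h1.le, h3]
      congr 1
      ring
    rw [h4]
    ring
  set η := min m (ε * Real.sqrt m) with hη
  have hη0 : 0 < η := lt_min hm0 (mul_pos hε (Real.sqrt_pos.2 hm0))
  have hpos' : ∀ φ l, |l| < η → 0 < h2 a b d φ - l := by
    intro φ l hl
    have h1 : l < m := (le_abs_self l).trans_lt (hl.trans_le (min_le_left _ _))
    linarith [hge φ]
  have hmem : ∀ φ l, |l| < η →
      |spt c φ + Real.sqrt (h2 a b d φ - l) - spt (γ φ) φ| < ε := by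
    intro φ l hl
    rw [hsup φ]
    have e : spt c φ + Real.sqrt (h2 a b d φ - l) - (spt c φ + Real.sqrt (h2 a b d φ)) =
        Real.sqrt (h2 a b d φ - l) - Real.sqrt (h2 a b d φ) := by ring
    rw [e]
    set A := Real.sqrt (h2 a b d φ - l) with hA
    set B := Real.sqrt (h2 a b d φ) with hB
    have hA0 : 0 ≤ A := Real.sqrt_nonneg _
    have hB0 : Real.sqrt m ≤ B := Real.sqrt_le_sqrt (hge φ)
    have hm1 : 0 < Real.sqrt m := Real.sqrt_pos.2 hm0
    have hA2 : A ^ 2 = h2 a b d φ - l := Real.sq_sqrt (hpos' φ l hl).le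
    have hB2 : B ^ 2 = h2 a b d φ := Real.sq_sqrt (hh0 φ).le
    have h1 : |A - B| * (A + B) = |l| := by
      rw [← abs_of_nonneg (by linarith : 0 ≤ A + B), ← abs_mul]
      have : (A - B) * (A + B) = -l := by linear_combination hA2 - hB2
      rw [this, abs_neg]
    have h2' : |l| < ε * Real.sqrt m := hl.trans_le (min_le_right _ _)
    by_contra hcon
    push Not at hcon
    have : ε * Real.sqrt m ≤ |A - B| * (A + B) :=
      mul_le_mul hcon (by linarith) hm1.le (abs_nonneg _)
    linarith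
  -- the function in the coordinates `(φ, l)`
  let F : ℝ × ℝ → ℝ := fun z => Function.uncurry K (z.1, spt c z.1 + Real.sqrt (h2 a b d z.1 - z.2))
  have hF : AnalyticOnNhd ℝ F (St η) := by
    intro z hz
    have hz' : |z.2| < η := hz
    have h1 : AnalyticAt ℝ (fun z : ℝ × ℝ => z.1) z := analyticAt_fst
    have h2' : AnalyticAt ℝ (fun z : ℝ × ℝ => z.2) z := analyticAt_snd
    have h3 : AnalyticAt ℝ (fun z : ℝ × ℝ => h2 a b d z.1) z :=
      AnalyticAt.comp (g := h2 a b d) (f := fun z : ℝ × ℝ => z.1) (h2_an a b d z.1) h1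
    have h4 : AnalyticAt ℝ (fun z : ℝ × ℝ => Real.sqrt (h2 a b d z.1 - z.2)) z :=
      AnalyticAt.comp (g := Real.sqrt) (f := fun z : ℝ × ℝ => h2 a b d z.1 - z.2)
        (sqrt_an (hpos' z.1 z.2 hz')) (h3.fun_sub h2')
    have h5 : AnalyticAt ℝ (fun z : ℝ × ℝ => spt c z.1) z := by
      have : (fun z : ℝ × ℝ => spt c z.1) =
          fun z => c.re * Real.cos z.1 + c.im * Real.sin z.1 := by
        funext z
        exact spt_eq c z.1
      rw [this]
      have hc : AnalyticAt ℝ (fun z : ℝ × ℝ => Real.cos z.1) z :=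
        AnalyticAt.comp (g := Real.cos) (f := fun z : ℝ × ℝ => z.1) Real.analyticAt_cos h1
      have hs : AnalyticAt ℝ (fun z : ℝ × ℝ => Real.sin z.1) z :=
        AnalyticAt.comp (g := Real.sin) (f := fun z : ℝ × ℝ => z.1) Real.analyticAt_sin h1
      exact (analyticAt_const.fun_mul hc).fun_add (analyticAt_const.fun_mul hs)
    have h6 : AnalyticAt ℝ (fun z : ℝ × ℝ =>
        ((z.1, spt c z.1 + Real.sqrt (h2 a b d z.1 - z.2)) : ℝ × ℝ)) z := h1.prod (h5.fun_add h4)
    exact AnalyticAt.comp (g := Function.uncurry K) (f := fun z : ℝ × ℝ =>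
        ((z.1, spt c z.1 + Real.sqrt (h2 a b d z.1 - z.2)) : ℝ × ℝ)) (hK _ (hmem z.1 z.2 hz')) h6
  have hw : ∀ s, 0 < 1 / ((a * d - b ^ 2) * h2 a b d s) := fun s =>
    one_div_pos.2 (mul_pos hdet (hh0 s))
  have hinv : ∀ s, ∃ ε > 0, ∀ δ : ℝ, 0 < δ → δ < ε →
      F (s + δ, 1 / ((a * d - b ^ 2) * h2 a b d s) * Real.sin δ ^ 2) =
      F (s - δ, 1 / ((a * d - b ^ 2) * h2 a b d s) * Real.sin δ ^ 2) := by
    intro s
    obtain ⟨εs, hεs, hsy⟩ := hsym s
    obtain ⟨hp0, hpφ⟩ := hP s
    -- positivity near `s`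
    have hev : ∀ᶠ φ in 𝓝 s, 0 < (γ s).re * Real.cos φ + (γ s).im * Real.sin φ -
        (c.re * Real.cos φ + c.im * Real.sin φ) := by
      have hcont : Continuous fun φ : ℝ => (γ s).re * Real.cos φ + (γ s).im * Real.sin φ -
        (c.re * Real.cos φ + c.im * Real.sin φ) := by fun_prop
      exact hcont.continuousAt.eventually (lt_mem_nhds hp0)
    obtain ⟨r, hr0, hball⟩ := Metric.eventually_nhds_iff.1 hev
    refine ⟨min εs r, lt_min hεs hr0, fun δ hδ hδ' => ?_⟩
    have hδ1 := hδ'.trans_le (min_le_left _ _)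
    have hδ2 := hδ'.trans_le (min_le_right _ _)
    have hval : ∀ φ, |φ - s| = δ → Real.sin (φ - s) ^ 2 = Real.sin δ ^ 2 →
        spt c φ + Real.sqrt (h2 a b d φ - 1 / ((a * d - b ^ 2) * h2 a b d s) * Real.sin δ ^ 2) =
        spt (γ s) φ := by
      intro φ h1 h2'
      have h3 := hball (y := φ) (by rw [Real.dist_eq, h1]; exact hδ2)
      have h4 := hpφ φ
      rw [h2'] at h4
      rw [← h4, Real.sqrt_sq h3.le, spt_eq, spt_eq]
      ring
    have e1 := hval (s + δ) (by rw [add_sub_cancel_left]; exact abs_of_pos hδ)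
      (by rw [add_sub_cancel_left])
    have e2 := hval (s - δ) (by rw [sub_sub_cancel_left, abs_neg]; exact abs_of_pos hδ)
      (by rw [sub_sub_cancel_left, Real.sin_neg, neg_sq])
    show K (s + δ) _ = K (s - δ) _
    simp only
    rw [e1, e2]
    exact hsy δ hδ hδ1
  refine ⟨η, hη0, fun l hl => ⟨F (0, l), fun φ => ⟨hmem φ l hl, hpos' φ l hl, ?_⟩⟩⟩
  exact leaf hη0 hF hw hinv φ l hl

end Pool.Agent.N264.MKI
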