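import Mathlib

/-!
# Analytic functions of two variables which are invariant under a small shift

A real analytic function `F (φ, l)` near `l = 0` which takes the same value at `(s + δ, l)` and
`(s - δ, l)` for `l = w(s) sin² δ`, does not depend on `φ`.
-/

set_option autoImplicit false

open Set Filter Topology

namespace Pool.Agent.N264.MKI

/-- the strip -/
def St (η : ℝ) : Set (ℝ × ℝ) := {z | |z.2| < η}

theorem St_open (η : ℝ) : IsOpen (St η) :=
  isOpen_lt (continuous_abs.comp continuous_snd) continuous_const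

/-- the derivative in the second variable -/
noncomputable def d2 (G : ℝ × ℝ → ℝ) (z : ℝ × ℝ) : ℝ := fderiv ℝ G z (0, 1)

/-- the derivative in the first variable -/
noncomputable def d1 (G : ℝ × ℝ → ℝ) (z : ℝ × ℝ) : ℝ := fderiv ℝ G z (1, 0)

theorem d2_an {G : ℝ × ℝ → ℝ} {S : Set (ℝ × ℝ)} (hG : AnalyticOnNhd ℝ G S) :
    AnalyticOnNhd ℝ (d2 G) S := by
  intro z hz
  exact ((ContinuousLinearMap.apply ℝ ℝ ((0, 1) : ℝ × ℝ)).analyticAt _).comp (hG z hz).fderiv

theorem d1_an {G : ℝ × ℝ → ℝ} {S : Set (ℝ × ℝ)} (hG : AnalyticOnNhd ℝ G S) :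
    AnalyticOnNhd ℝ (d1 G) S := by
  intro z hz
  exact ((ContinuousLinearMap.apply ℝ ℝ ((1, 0) : ℝ × ℝ)).analyticAt _).comp (hG z hz).fderiv

theorem d2_has {G : ℝ × ℝ → ℝ} {φ l : ℝ} (hG : AnalyticAt ℝ G (φ, l)) :
    HasDerivAt (fun l => G (φ, l)) (d2 G (φ, l)) l := by
  have h1 : HasDerivAt (fun l : ℝ => ((φ, l) : ℝ × ℝ)) (0, 1) l :=
    (hasDerivAt_const l φ).prodMk (hasDerivAt_id l)
  exact hG.differentiableAt.hasFDerivAt.comp_hasDerivAt l h1

theorem d1_has {G : ℝ × ℝ → ℝ} {φ l : ℝ} (hG : AnalyticAt ℝ G (φ, l)) :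
    HasDerivAt (fun φ => G (φ, l)) (d1 G (φ, l)) φ := by
  have h1 : HasDerivAt (fun φ : ℝ => ((φ, l) : ℝ × ℝ)) (1, 0) φ :=
    (hasDerivAt_id φ).prodMk (hasDerivAt_const φ l)
  exact hG.differentiableAt.hasFDerivAt.comp_hasDerivAt φ h1

/-- iterated derivatives in the second variable -/
noncomputable def it (G : ℝ × ℝ → ℝ) : ℕ → ℝ × ℝ → ℝ
  | 0 => G
  | n + 1 => d2 (it G n)

theorem it_an {G : ℝ × ℝ → ℝ} {S : Set (ℝ × ℝ)} (hG : AnalyticOnNhd ℝ G S) (n : ℕ) :
    AnalyticOnNhd ℝ (it G n) S := by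
  induction n with
  | zero => exact hG
  | succ n ih => exact d2_an ih

theorem it_iter {G : ℝ × ℝ → ℝ} {η : ℝ} (hG : AnalyticOnNhd ℝ G (St η)) (φ : ℝ) (n : ℕ) :
    ∀ l : ℝ, |l| < η → iteratedDeriv n (fun l => G (φ, l)) l = it G n (φ, l) := by
  induction n with
  | zero => intro l _; rw [iteratedDeriv_zero]; rfl
  | succ n ih =>
    intro l hl
    rw [iteratedDeriv_succ]
    have h1 : iteratedDeriv n (fun l => G (φ, l)) =ᶠ[𝓝 l] fun l => it G n (φ, l) := by
      have : {l : ℝ | |l| < η} ∈ 𝓝 l :=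
        (isOpen_lt continuous_abs continuous_const).mem_nhds hl
      filter_upwards [this] with x hx using ih x hx
    rw [h1.deriv_eq]
    exact (d2_has (it_an hG n (φ, l) hl)).deriv

theorem zero_of_it {G : ℝ × ℝ → ℝ} {η : ℝ} (hη : 0 < η) (hG : AnalyticOnNhd ℝ G (St η)) {φ : ℝ}
    (h0 : ∀ n, it G n (φ, 0) = 0) {l : ℝ} (hl : |l| < η) : G (φ, l) = 0 := by
  have hf : AnalyticOnNhd ℝ (fun l => G (φ, l)) (Ioo (-η) η) := by
    intro x hx
    have hx' : ((φ, x) : ℝ × ℝ) ∈ St η := abs_lt.2 hx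
    have h1 : AnalyticAt ℝ (fun l : ℝ => ((φ, l) : ℝ × ℝ)) x := analyticAt_const.prod analyticAt_id
    exact AnalyticAt.comp (g := G) (f := fun l : ℝ => ((φ, l) : ℝ × ℝ)) (hG _ hx') h1
  have h00 : (0 : ℝ) ∈ Ioo (-η) η := ⟨by linarith, hη⟩
  have h1 := (hf 0 h00).hasFPowerSeriesAt
  have h2 : (FormalMultilinearSeries.ofScalars ℝ
      (fun n ↦ iteratedDeriv n (fun l => G (φ, l)) 0 / n.factorial)) = 0 := by
    have : (fun n ↦ iteratedDeriv n (fun l => G (φ, l)) 0 / (n.factorial : ℝ)) = fun _ => 0 := by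
      funext n
      rw [it_iter hG φ n 0 (by simpa using hη), h0 n, zero_div]
    rw [this]
    ext n
    simp [FormalMultilinearSeries.ofScalars]
  rw [h2] at h1
  have h3 : (fun l => G (φ, l)) =ᶠ[𝓝 0] 0 := h1.eventually_eq_zero
  exact hf.eqOn_zero_of_preconnected_of_eventuallyEq_zero isPreconnected_Ioo h00 h3 (abs_lt.1 hl)

/-- positivity propagates down -/
theorem pos_down {G : ℝ × ℝ → ℝ} {η : ℝ} (hG : AnalyticOnNhd ℝ G (St η)) {r φ : ℝ}
    (hr : r ≤ η) {m : ℕ} (h0 : ∀ j < m, it G j (φ, 0) = 0)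
    (hm : ∀ l, 0 ≤ l → l < r → 0 < it G m (φ, l)) :
    ∀ j ≤ m, ∀ l, 0 < l → l < r → 0 < it G j (φ, l) := by
  intro j hj
  induction hk : m - j generalizing j with
  | zero =>
    intro l hl hlr
    have : j = m := by omega
    rw [this]
    exact hm l hl.le hlr
  | succ k ih =>
    intro l hl hlr
    have h1 := ih (j + 1) (by omega) (by omega)
    have hjm : j < m := by omega
    have hmono : StrictMonoOn (fun l => it G j (φ, l)) (Icc 0 l) := by
      apply strictMonoOn_of_deriv_pos (convex_Icc 0 l)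
      · intro x hx
        have hx' : ((φ, x) : ℝ × ℝ) ∈ St η := by
          show |x| < η
          rw [abs_of_nonneg hx.1]
          linarith [hx.2]
        exact (d2_has (it_an hG j _ hx')).continuousAt.continuousWithinAt
      · intro x hx
        rw [interior_Icc] at hx
        have hx' : ((φ, x) : ℝ × ℝ) ∈ St η := by
          show |x| < η
          rw [abs_of_nonneg hx.1.le]
          linarith [hx.2]
        rw [(d2_has (it_an hG j _ hx')).deriv]
        exact h1 x hx.1 (hx.2.trans hlr)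
    have h2 := hmono (left_mem_Icc.2 hl.le) (right_mem_Icc.2 hl.le) hl
    simp only at h2
    rw [h0 j hjm] at h2
    exact h2

/-- the sign of the derivative in the first variable contradicts the invariance -/
theorem contra {F : ℝ × ℝ → ℝ} {η : ℝ} (hη : 0 < η) (hF : AnalyticOnNhd ℝ F (St η)) {w s : ℝ}
    (hw : 0 < w) (hinv : ∃ ε > 0, ∀ δ : ℝ, 0 < δ → δ < ε →
      F (s + δ, w * Real.sin δ ^ 2) = F (s - δ, w * Real.sin δ ^ 2))
    {r : ℝ} (hr : 0 < r) (hrη : r ≤ η)
    (hpos : ∀ φ, |φ - s| < r → ∀ l, 0 < l → l < r → 0 < d1 F (φ, l)) : False := by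
  obtain ⟨ε, hε, hinv⟩ := hinv
  -- choose a small `δ`
  obtain ⟨δ, hδ, hδε, hδr, hδ1, hδw⟩ : ∃ δ : ℝ, 0 < δ ∧ δ < ε ∧ δ < r ∧ δ < 1 ∧ w * δ ^ 2 < r := by
    have h1 : ∀ᶠ δ : ℝ in 𝓝[>] 0, w * δ ^ 2 < r := by
      have : Tendsto (fun δ : ℝ => w * δ ^ 2) (𝓝 0) (𝓝 (w * 0 ^ 2)) :=
        (continuous_const.mul (continuous_id.pow 2)).tendsto 0
      exact (this.mono_left nhdsWithin_le_nhds).eventually_lt_const (by simpa using hr)
    have h2 : ∀ᶠ δ : ℝ in 𝓝[>] 0, δ < min (min ε r) 1 :=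
      (tendsto_id.mono_left nhdsWithin_le_nhds).eventually_lt_const (by positivity)
    obtain ⟨δ, h3, h4, h5⟩ := (h1.and (h2.and self_mem_nhdsWithin)).exists
    have h6 := (lt_min_iff.1 h4).1
    exact ⟨δ, h5, (lt_min_iff.1 h6).1, (lt_min_iff.1 h6).2, (lt_min_iff.1 h4).2, h3⟩
  set l := w * Real.sin δ ^ 2 with hl
  have hsin0 : 0 < Real.sin δ := Real.sin_pos_of_pos_of_lt_pi hδ (by linarith [Real.pi_gt_three])
  have hsin1 : Real.sin δ ≤ δ := Real.sin_le hδ.le
  have hl0 : 0 < l := by positivity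
  have hlr : l < r := by
    have : Real.sin δ ^ 2 ≤ δ ^ 2 := pow_le_pow_left₀ hsin0.le hsin1 2
    calc l ≤ w * δ ^ 2 := by rw [hl]; gcongr
      _ < r := hδw
  have hmem : ∀ φ, ((φ, l) : ℝ × ℝ) ∈ St η := fun φ => by
    show |l| < η
    rw [abs_of_pos hl0]
    linarith
  have hmono : StrictMonoOn (fun φ => F (φ, l)) (Icc (s - δ) (s + δ)) := by
    apply strictMonoOn_of_deriv_pos (convex_Icc _ _)
    · intro x _
      exact (d1_has (hF _ (hmem x))).continuousAt.continuousWithinAt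
    · intro x hx
      rw [interior_Icc] at hx
      rw [(d1_has (hF _ (hmem x))).deriv]
      refine hpos x ?_ l hl0 hlr
      rw [abs_lt]
      constructor
      · linarith [hx.1]
      · linarith [hx.2]
  have h1 := hmono (left_mem_Icc.2 (by linarith)) (right_mem_Icc.2 (by linarith))
    (by linarith : s - δ < s + δ)
  simp only at h1
  rw [hinv δ hδ hδε] at h1
  exact lt_irrefl _ h1

/-- **Main lemma.** -/
theorem leaf {F : ℝ × ℝ → ℝ} {η : ℝ} (hη : 0 < η) (hF : AnalyticOnNhd ℝ F (St η)) {w : ℝ → ℝ}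
    (hw : ∀ s, 0 < w s) (hinv : ∀ s, ∃ ε > 0, ∀ δ : ℝ, 0 < δ → δ < ε →
      F (s + δ, w s * Real.sin δ ^ 2) = F (s - δ, w s * Real.sin δ ^ 2)) (φ l : ℝ)
    (hl : |l| < η) : F (φ, l) = F (0, l) := by
  have key : ∀ n φ, it (d1 F) n (φ, 0) = 0 := by
    by_contra hcon
    push Not at hcon
    classical
    set m := Nat.find hcon with hm
    obtain ⟨s, hs⟩ := Nat.find_spec hcon
    rw [← hm] at hs
    have hmin : ∀ j < m, ∀ φ, it (d1 F) j (φ, 0) = 0 := by
      intro j hj φ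
      by_contra h
      exact Nat.find_min hcon hj ⟨φ, h⟩
    -- positive or negative
    have main : ∀ F : ℝ × ℝ → ℝ, AnalyticOnNhd ℝ F (St η) → (∃ ε > 0, ∀ δ : ℝ, 0 < δ → δ < ε →
        F (s + δ, w s * Real.sin δ ^ 2) = F (s - δ, w s * Real.sin δ ^ 2)) →
        (∀ j < m, ∀ φ, it (d1 F) j (φ, 0) = 0) → 0 < it (d1 F) m (s, 0) → False := by
      intro F hF hinv hmin hpos
      have han := it_an (d1_an hF) m
      have hs0 : ((s, 0) : ℝ × ℝ) ∈ St η := by
        show |(0 : ℝ)| < η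
        simpa using hη
      have hev : ∀ᶠ z in 𝓝 ((s, 0) : ℝ × ℝ), 0 < it (d1 F) m z :=
        (han _ hs0).continuousAt.eventually (lt_mem_nhds hpos)
      obtain ⟨r, hr, hball⟩ := Metric.eventually_nhds_iff_ball.1 hev
      set r' := min r η with hr'
      have hr'0 : 0 < r' := lt_min hr hη
      refine contra hη hF (hw s) hinv hr'0 (min_le_right _ _) ?_
      intro φ hφ l hl0 hlr
      have hrr : r' ≤ r := min_le_left _ _
      refine pos_down (d1_an hF) (min_le_right r η) (fun j hj => hmin j hj φ) ?_ 0 (Nat.zero_le _) l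
        hl0 hlr
      intro x hx0 hx
      apply hball
      rw [Metric.mem_ball, Prod.dist_eq, max_lt_iff]
      constructor
      · rw [Real.dist_eq]; linarith
      · rw [Real.dist_eq, sub_zero, abs_of_nonneg hx0]; linarith
    rcases lt_or_gt_of_ne hs with hneg | hpos
    · -- negative: use `-F`
      have hit : ∀ n z, z ∈ St η → it (d1 (fun z => -F z)) n z = -it (d1 F) n z := by
        intro n
        induction n with
        | zero =>
          intro z _
          show fderiv ℝ (fun z => -F z) z (1, 0) = -fderiv ℝ F z (1, 0)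
          rw [fderiv_fun_neg]
          rfl
        | succ n ih =>
          intro z hz
          show fderiv ℝ (it (d1 (fun z => -F z)) n) z (0, 1) = -fderiv ℝ (it (d1 F) n) z (0, 1)
          have : it (d1 (fun z => -F z)) n =ᶠ[𝓝 z] fun z => -it (d1 F) n z := by
            filter_upwards [(St_open η).mem_nhds hz] with x hx using ih x hx
          rw [this.fderiv_eq, fderiv_fun_neg]
          rfl
      have hz0 : ∀ φ : ℝ, ((φ, 0) : ℝ × ℝ) ∈ St η := fun φ => by
        show |(0 : ℝ)| < η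
        simpa using hη
      refine main (fun z => -F z) hF.neg ?_ (fun j hj φ => ?_) ?_
      · obtain ⟨ε, hε, h⟩ := hinv s
        exact ⟨ε, hε, fun δ h1 h2 => by simp only [h δ h1 h2]⟩
      · rw [hit j _ (hz0 φ), hmin j hj φ, neg_zero]
      · rw [hit m _ (hz0 s)]
        linarith
    · exact main F hF (hinv s) hmin hpos
  have hzero : ∀ φ, d1 F (φ, l) = 0 := fun φ => zero_of_it hη (d1_an hF) (fun n => key n φ) hl
  have hd : ∀ φ, HasDerivAt (fun φ => F (φ, l)) 0 φ := fun φ => by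
    have := d1_has (hF (φ, l) hl)
    rwa [hzero φ] at this
  exact is_const_of_deriv_eq_zero (fun φ => (hd φ).differentiableAt) (fun φ => (hd φ).deriv) φ 0

end Pool.Agent.N264.MKI
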